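import Pool.Agent.Helper70.SUB.SheetW

/-!
Project SUBW, row SPW: closure properties of moderate S-units and of their sums with slow
coefficients.
-/

set_option autoImplicit false

namespace Pool.Agent.Helper97.SUBW

open Filter Finset Matrix Pool.Agent.Helper70.SUB Pool.Agent.Helper77.SUBK
  Pool.Agent.Helper70.SUBL Pool.Agent.Helper70.SUBW

section

variable {M : Type} [Field M] [NumberField M] {S : Finset ℕ} (P : PF S M)
  {φ : Ultrafilter ℕ} {X : ℕ → ℝ}

theorem hb_mono {H H' : ℝ} {z : M} (h : HB P H z) (hH : H ≤ H') : HB P H' z :=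
  fun v hv σ => (h v hv σ).trans hH

theorem ev_one_le (hX : Tendsto X (φ : Filter ℕ) atTop) : ∀ᶠ j in (φ : Filter ℕ), 1 ≤ X j :=
  hX.eventually_ge_atTop 1

/-- raising the exponent -/
theorem hb_exp {A A' x : ℝ} {z : M} (hx : 1 ≤ x) (h : HB P (x ^ A) z) (hA : A ≤ A') :
    HB P (x ^ A') z :=
  hb_mono P h (Real.rpow_le_rpow_of_exponent_le hx hA)

theorem mu_mul (hSVB : ST_SVB) (hX : Tendsto X (φ : Filter ℕ) atTop) {u u' : ℕ → M}
    (h : MU P φ X u) (h' : MU P φ X u') : MU P φ X (fun j => u j * u' j) := by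
  obtain ⟨-, -, -, -, -, hmul, -⟩ := hSVB M
  obtain ⟨h1, A, hA, h2⟩ := h
  obtain ⟨h1', A', hA', h2'⟩ := h'
  refine ⟨?_, A + A', by positivity, ?_⟩
  · filter_upwards [h1, h1'] with j a b
    exact hmul S _ _ a b
  · filter_upwards [h2, h2', ev_one_le hX] with j a b hx
    intro v hv σ
    rw [map_mul, P.mul v hv, Real.rpow_add (by linarith)]
    exact mul_le_mul (a v hv σ) (b v hv σ) (P.nn _ _) (Real.rpow_nonneg (by linarith) _)

theorem mu_inv (hSVB : ST_SVB) (hPRK : ST_PRK) [IsGalois ℚ M] (hS : ∀ p ∈ S, p.Prime)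
    (hX : Tendsto X (φ : Filter ℕ) atTop) {u : ℕ → M}
    (h : MU P φ X u) : MU P φ X (fun j => (u j)⁻¹) := by
  obtain ⟨-, -, -, -, -, -, hinv, -⟩ := hSVB M
  obtain ⟨-, -, hprk⟩ := hPRK M S P hS
  obtain ⟨h1, A, hA, h2⟩ := h
  refine ⟨?_, A * ((plc S).card * Fintype.card (M ≃ₐ[ℚ] M) : ℕ) + 1, by positivity, ?_⟩
  · filter_upwards [h1] with j a
    exact hinv S _ a
  · filter_upwards [h1, h2, ev_one_le hX] with j a b hx
    obtain ⟨-, h3⟩ := hprk (u j) (X j ^ A) a b
    rw [← Real.rpow_natCast, ← Real.rpow_mul (by linarith)] at h3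
    exact hb_exp P hx h3 (by linarith)

theorem mu_conj (hSVB : ST_SVB) {u : ℕ → M} (σ : M ≃ₐ[ℚ] M)
    (h : MU P φ X u) : MU P φ X (fun j => σ (u j)) := by
  obtain ⟨-, -, -, -, -, -, -, -, -, hσ, -⟩ := hSVB M
  obtain ⟨h1, A, hA, h2⟩ := h
  refine ⟨?_, A, hA, ?_⟩
  · filter_upwards [h1] with j a
    exact (hσ S _ σ).2 a
  · filter_upwards [h2] with j b
    intro v hv τ
    exact b v hv (τ * σ)

theorem mu_root (hX : Tendsto X (φ : Filter ℕ) atTop) {u : ℕ → M} (n : ℕ) (hn : n ≠ 0)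
    (hu : ∀ᶠ j in (φ : Filter ℕ), SV S (u j)) (h : MU P φ X (fun j => u j ^ n)) :
    MU P φ X u := by
  obtain ⟨-, A, hA, h2⟩ := h
  refine ⟨hu, A, hA, ?_⟩
  filter_upwards [h2, ev_one_le hX] with j b hx
  intro v hv σ
  have h3 := b v hv σ
  rw [map_pow, P.pow hv] at h3
  rcases le_or_gt (P.nv v (σ (u j))) 1 with h4 | h4
  · exact h4.trans (Real.one_le_rpow hx hA.le)
  · exact (le_self_pow₀ h4.le hn).trans h3

theorem mu_one (hSVB : ST_SVB) (hX : Tendsto X (φ : Filter ℕ) atTop) :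
    MU P φ X (fun _ => (1 : M)) := by
  obtain ⟨-, -, -, -, hone, -⟩ := hSVB M
  refine ⟨Eventually.of_forall fun _ => hone S, 1, one_pos, ?_⟩
  filter_upwards [ev_one_le hX] with j hx
  intro v hv σ
  rw [map_one, P.one hv, Real.rpow_one]
  exact hx

theorem mu_pow (hSVB : ST_SVB) (hX : Tendsto X (φ : Filter ℕ) atTop) {u : ℕ → M}
    (h : MU P φ X u) (n : ℕ) : MU P φ X (fun j => u j ^ n) := by
  induction n with
  | zero =>
    simp only [pow_zero]
    exact mu_one P hSVB hX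
  | succ n ih =>
    simp only [pow_succ]
    exact mu_mul P hSVB hX ih h

theorem mu_zpow (hSVB : ST_SVB) (hPRK : ST_PRK) [IsGalois ℚ M] (hS : ∀ p ∈ S, p.Prime)
    (hX : Tendsto X (φ : Filter ℕ) atTop) {u : ℕ → M}
    (h : MU P φ X u) (n : ℤ) : MU P φ X (fun j => u j ^ n) := by
  cases n with
  | ofNat n =>
    simp only [Int.ofNat_eq_natCast, zpow_natCast]
    exact mu_pow P hSVB hX h n
  | negSucc n =>
    simp only [zpow_negSucc]
    exact mu_inv P hSVB hPRK hS hX (mu_pow P hSVB hX h (n + 1))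

theorem mu_prod (hSVB : ST_SVB) (hX : Tendsto X (φ : Filter ℕ) atTop) {ι : Type}
    (s : Finset ι) (f : ι → ℕ → M) (h : ∀ i ∈ s, MU P φ X (f i)) :
    MU P φ X (fun j => ∏ i ∈ s, f i j) := by
  classical
  induction s using Finset.induction_on with
  | empty =>
    simp only [Finset.prod_empty]
    exact mu_one P hSVB hX
  | insert a s ha ih =>
    simp only [Finset.prod_insert ha]
    exact mu_mul P hSVB hX (h a (Finset.mem_insert_self a s))
      (ih fun i hi => h i (Finset.mem_insert_of_mem hi))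

/-- sums over an arbitrary finite type -/
theorem spm_sum {ι : Type} [Fintype ι] (c u : ι → ℕ → M) (z : ℕ → M)
    (hc : ∀ i, Slw P φ X (c i)) (hu : ∀ i, MU P φ X (u i))
    (hz : ∀ᶠ j in (φ : Filter ℕ), ∑ i, c i j * u i j = z j) : SpM P φ X z := by
  classical
  set e := Fintype.equivFin ι
  refine ⟨Fintype.card ι, fun k => c (e.symm k), fun k => u (e.symm k), fun k => hc _,
    fun k => hu _, ?_⟩
  filter_upwards [hz] with j hj
  rw [← hj]
  exact Equiv.sum_comp e.symm (fun i => c i j * u i j)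

theorem spa_sum {ι : Type} [Fintype ι] (c u : ι → ℕ → M) (z : ℕ → M)
    (hc : ∀ i, Slw P φ X (c i)) (hu : ∀ i, ∀ᶠ j in (φ : Filter ℕ), SV S (u i j))
    (hz : ∀ᶠ j in (φ : Filter ℕ), ∑ i, c i j * u i j = z j) : Spa P φ X z := by
  classical
  set e := Fintype.equivFin ι
  refine ⟨Fintype.card ι, fun k => c (e.symm k), fun k => u (e.symm k), fun k => hc _,
    fun k => hu _, ?_⟩
  filter_upwards [hz] with j hj
  rw [← hj]
  exact Equiv.sum_comp e.symm (fun i => c i j * u i j)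

theorem spm_congr {z z' : ℕ → M} (h : ∀ᶠ j in (φ : Filter ℕ), z j = z' j)
    (hz : SpM P φ X z) : SpM P φ X z' := by
  obtain ⟨t, c, u, hc, hu, hs⟩ := hz
  refine ⟨t, c, u, hc, hu, ?_⟩
  filter_upwards [h, hs] with j a b
  rw [b, a]

theorem spa_congr {z z' : ℕ → M} (h : ∀ᶠ j in (φ : Filter ℕ), z j = z' j)
    (hz : Spa P φ X z) : Spa P φ X z' := by
  obtain ⟨t, c, u, hc, hu, hs⟩ := hz
  refine ⟨t, c, u, hc, hu, ?_⟩
  filter_upwards [h, hs] with j a b
  rw [b, a]

end

theorem st_SPW (hSLW : ST_SLW) (hPRK : ST_PRK) (hSVB : ST_SVB) : ST_SPW := by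
  classical
  intro M _ _ _ S P φ X hS hX
  obtain ⟨slw_const, slw_am, -⟩ := hSLW M S P φ X hS hX
  have h1 := mu_one (φ := φ) (X := X) P hSVB hX
  have hslw : ∀ z : ℕ → M, Slw P φ X z → SpM P φ X z := by
    intro z hz
    refine spm_sum P (ι := Unit) (fun _ => z) (fun _ _ => 1) z (fun _ => hz) (fun _ => h1) ?_
    exact Eventually.of_forall fun j => by simp
  have hmu : ∀ u : ℕ → M, MU P φ X u → SpM P φ X u := by
    intro u hu
    refine spm_sum P (ι := Unit) (fun _ _ => 1) (fun _ => u) u (fun _ => slw_const 1)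
      (fun _ => hu) ?_
    exact Eventually.of_forall fun j => by simp
  have hadd : ∀ z z' : ℕ → M, SpM P φ X z → SpM P φ X z' → SpM P φ X (fun j => z j + z' j) := by
    rintro z z' ⟨t, c, u, hc, hu, hs⟩ ⟨t', c', u', hc', hu', hs'⟩
    refine spm_sum P (ι := Fin t ⊕ Fin t') (Sum.elim c c') (Sum.elim u u') _ ?_ ?_ ?_
    · rintro (i | i)
      · exact hc i
      · exact hc' i
    · rintro (i | i)
      · exact hu i
      · exact hu' i
    · filter_upwards [hs, hs'] with j a b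
      rw [Fintype.sum_sum_type, ← a, ← b]
      rfl
  have hmul : ∀ z z' : ℕ → M, SpM P φ X z → SpM P φ X z' → SpM P φ X (fun j => z j * z' j) := by
    rintro z z' ⟨t, c, u, hc, hu, hs⟩ ⟨t', c', u', hc', hu', hs'⟩
    refine spm_sum P (ι := Fin t × Fin t') (fun k j => c k.1 j * c' k.2 j)
      (fun k j => u k.1 j * u' k.2 j) _ ?_ ?_ ?_
    · intro k
      exact (slw_am _ _ (hc k.1) (hc' k.2)).2
    · intro k
      exact mu_mul P hSVB hX (hu k.1) (hu' k.2)
    · filter_upwards [hs, hs'] with j a b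
      rw [Fintype.sum_prod_type, ← a, ← b, Finset.sum_mul_sum]
      refine Finset.sum_congr rfl fun i _ => Finset.sum_congr rfl fun k _ => ?_
      ring
  refine ⟨fun u u' h h' => mu_mul P hSVB hX h h', fun u h => mu_inv P hSVB hPRK hS hX h,
    fun u σ h => mu_conj P hSVB σ h, fun u n hn hu h => mu_root P hX n hn hu h, ?_, hslw, hmu,
    fun z z' h h' => ⟨hadd z z' h h', hmul z z' h h'⟩, ?_, ?_, ?_,
    fun z z' h => ⟨fun hz => spm_congr P h hz, fun hz => spa_congr P h hz⟩, ?_⟩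
  · intro r w m hw
    exact mu_prod P hSVB hX Finset.univ (fun k j => w k j ^ m k)
      (fun k _ => mu_zpow P hSVB hPRK hS hX (hw k) (m k))
  · intro z n hz
    induction n with
    | zero =>
      simp only [pow_zero]
      exact hslw _ (slw_const 1)
    | succ n ih =>
      simp only [pow_succ]
      exact hmul _ _ ih hz
  · intro n f hf
    induction n with
    | zero =>
      simp only [Finset.univ_eq_empty, Finset.sum_empty]
      exact hslw _ (slw_const 0)
    | succ n ih =>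
      simp only [Fin.sum_univ_succ]
      exact hadd _ _ (hf 0) (ih (fun i => f i.succ) fun i => hf i.succ)
  · rintro z ⟨t, c, u, hc, hu, hs⟩
    exact ⟨t, c, u, hc, fun i => (hu i).1, hs⟩
  · intro ι _ c u hc hu
    exact spa_sum P c u _ hc hu (Eventually.of_forall fun _ => rfl)

end Pool.Agent.Helper97.SUBW
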